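import Pool.Agent.H56.E.Base
import Pool.Agent.H56.E.H56.G3.TS

/-!
# Theorem (G), MP_c59857_nt: row SA2
-/

set_option autoImplicit false

namespace Pool.Agent.H56.E.H76.G3

open Pool.Agent.H76.G3

open Finset Pool.Agent.H6.N4D Pool.Agent.H78.GX.H6.N4D Pool.Agent.H93.EB Pool.Agent.H93.GS
open Pool.Agent.H56.G3 Pool.Agent.H56.E.H56.G3

/-- the energy is between 0 and 2 -/
lemma sa2_abs (hRB : T_RB) (th : ℝ) (hth : 0 < th) (lam : ℕ → ℝ) (hB : B1 lam) (k n : ℕ) :
    |En th lam 1 (2 ^ k) n / 2| ≤ 1 := by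
  have hk : (1 : ℕ) ≤ 2 ^ k := Nat.one_le_two_pow
  obtain ⟨_, h0, h1, _⟩ := hRB th lam 1 (2 ^ k) n hth hB le_rfl hk
  have h2 : ((1 : ℕ) : ℝ) / ((2 ^ k : ℕ) : ℝ) ≤ 1 := by
    rw [div_le_one (by positivity)]
    exact_mod_cast hk
  rw [abs_le]
  constructor <;> linarith

/-- the sliding mean of a multiple -/
lemma sa2_sl (N n : ℕ) (F : ℕ → ℝ) (c : ℝ) : sl N n (fun v => F v / c) = sl N n F / c := by
  unfold sl
  rw [← Finset.sum_div]
  ring

/-- the mean energy of a level is at most that of a lower level -/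
lemma sa2_lev (hRB : T_RB) (hRN : T_RN) (hSF : T_SF) (th : ℝ) (hth : 0 < th) (hth1 : th ≤ 1)
    (lam : ℕ → ℝ) (hB : B1 lam) (S : Par) (a k : ℕ) (A ε u : ℝ) (hA : 1 ≤ A)
    (hu : A ≤ u) (h1 : sS S (fun _ => 1) ≤ 2 * u)
    (hAε : (2 * (16 / th ^ 2) + 8) / A ≤ ε / 2)
    (hab : S.n S.a ≤ S.n S.b) (hak : A * 2 ^ a ≤ 2 ^ k) (hkn : A * 2 ^ k ≤ S.n S.a) :
    sS S (En th lam 1 (2 ^ k)) ≤ sS S (En th lam 1 (2 ^ a)) + ε / 2 * u := by
  have hA0 : 0 < A := by linarith
  have hu0 : 0 < u := by linarith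
  have h2k : (0 : ℝ) < 2 ^ k := by positivity
  have hna : (0 : ℝ) < S.n S.a := lt_of_lt_of_le (by positivity) hkn
  have hC : 0 ≤ 16 / th ^ 2 := by positivity
  have hr : (2 : ℝ) ^ a / 2 ^ k ≤ 1 / A := by
    rw [div_le_div_iff₀ h2k hA0]
    linarith
  have hr2 : (2 : ℝ) ^ k / S.n S.a ≤ 1 / A := by
    rw [div_le_div_iff₀ hna hA0]
    linarith
  have hHA : 2 ^ k ≤ S.n S.a := by
    have h : (2 : ℝ) ^ k ≤ S.n S.a := by
      refine le_trans ?_ hkn
      nlinarith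
    exact_mod_cast h
  have hsf := hSF (fun v => En th lam 1 (2 ^ a) v / 2) (2 ^ k) (S.n S.a) (S.n S.b)
    (fun n => sa2_abs hRB th hth lam hB a n) Nat.one_le_two_pow hHA hab
  have e1 : ∑ n ∈ Ico (S.n S.a) (S.n S.b),
      sl (2 ^ k) n (fun v => En th lam 1 (2 ^ a) v / 2) / n =
      (∑ n ∈ Ico (S.n S.a) (S.n S.b), sl (2 ^ k) n (En th lam 1 (2 ^ a)) / n) / 2 := by
    rw [Finset.sum_div]
    apply Finset.sum_congr rfl
    intro n _
    rw [sa2_sl]
    ring
  have e2 : ∑ n ∈ Ico (S.n S.a) (S.n S.b), (fun v => En th lam 1 (2 ^ a) v / 2) n / n =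
      (sS S (En th lam 1 (2 ^ a))) / 2 := by
    unfold sS
    rw [Finset.sum_div]
    apply Finset.sum_congr rfl
    intro n _
    ring
  rw [e1, e2] at hsf
  have hsf2 := (abs_le.mp hsf).2
  have hs1 : sS S (En th lam 1 (2 ^ k)) ≤
      ∑ n ∈ Ico (S.n S.a) (S.n S.b), sl (2 ^ k) n (En th lam 1 (2 ^ a)) / n +
        16 / th ^ 2 * (1 / A) * sS S (fun _ => 1) := by
    unfold sS
    rw [Finset.mul_sum, ← Finset.sum_add_distrib]
    apply Finset.sum_le_sum
    intro n _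
    have hrn := hRN th lam (2 ^ a) (2 ^ k) n hth hth1 hB Nat.one_le_two_pow
      Nat.one_le_two_pow
    push_cast at hrn
    have h3 : En th lam 1 (2 ^ k) n ≤ sl (2 ^ k) n (En th lam 1 (2 ^ a)) +
        16 / th ^ 2 * (1 / A) := by
      have := mul_le_mul_of_nonneg_left hr hC
      linarith
    have h4 : (0 : ℝ) ≤ n := Nat.cast_nonneg n
    calc En th lam 1 (2 ^ k) n / n ≤ (sl (2 ^ k) n (En th lam 1 (2 ^ a)) +
        16 / th ^ 2 * (1 / A)) / n := div_le_div_of_nonneg_right h3 h4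
      _ = _ := by ring
  push_cast at hsf2
  have h5 : 4 * (2 : ℝ) ^ k / S.n S.a ≤ 4 * (1 / A) := by
    rw [mul_div_assoc]
    linarith
  have h6 : 16 / th ^ 2 * (1 / A) * sS S (fun _ => 1) ≤ 16 / th ^ 2 * (1 / A) * (2 * u) :=
    mul_le_mul_of_nonneg_left h1 (by positivity)
  have h7 : 8 * (1 / A) ≤ 8 * (1 / A) * u := by
    have : (0 : ℝ) ≤ 8 * (1 / A) := by positivity
    nlinarith
  have h8 : (2 * (16 / th ^ 2) + 8) / A * u ≤ ε / 2 * u :=
    mul_le_mul_of_nonneg_right hAε hu0.le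
  have h9 : (2 * (16 / th ^ 2) + 8) / A * u =
      16 / th ^ 2 * (1 / A) * (2 * u) + 8 * (1 / A) * u := by
    field_simp
  linarith

/-- (SA2) the energies of the windows and of the levels. -/
theorem pf_SA2 (hRB : T_RB) (hRN : T_RN) (hSF : T_SF) (hSV : T_SV) (hSN : T_SN) : T_SA2 := by
  intro th hth0 hth1 ε K r hε hK
  have hC : 0 ≤ 16 / th ^ 2 := by positivity
  obtain ⟨A, hAd⟩ : ∃ A : ℝ, A = 1 + (4 * (16 / th ^ 2) + 16) / ε := ⟨_, rfl⟩
  have hA : 1 ≤ A := by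
    rw [hAd]
    have : 0 ≤ (4 * (16 / th ^ 2) + 16) / ε := by positivity
    linarith
  have hA0 : 0 < A := by linarith
  have hAε : (2 * (16 / th ^ 2) + 8) / A ≤ ε / 2 := by
    rw [div_le_iff₀ hA0, hAd]
    have : ε * ((4 * (16 / th ^ 2) + 16) / ε) = 4 * (16 / th ^ 2) + 16 := by
      field_simp
    nlinarith
  obtain ⟨X₁, h1⟩ := hSN K r A hK
  have hε' : 0 < min (ε / 8) 1 := lt_min (by linarith) one_pos
  obtain ⟨X₂, h2⟩ := hSV K (min (ε / 8) 1) hK hε'
  refine ⟨max X₁ X₂, ?_⟩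
  intro S lam k₁ a w i hS hX hB hw ha hi
  obtain ⟨hL, hNh, _, _, _, ht, hlv, _⟩ := h1 S k₁ hS (le_trans (le_max_left _ _) hX)
  have hh : 0 < S.h := hS.ok.hh
  have hN0 : 0 < S.N := by
    by_contra hcon
    push Not at hcon
    nlinarith
  have hab' : S.a < S.b := by
    unfold Par.N at hN0
    have : (S.a : ℝ) < S.b := by linarith
    exact_mod_cast this
  have hmem : S.a ∈ S.I := by
    unfold Par.I
    rw [Finset.mem_Ico]
    exact ⟨le_rfl, hab'⟩
  obtain ⟨_, _, _, _, hAk, _, _⟩ := ht S.a hmem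
  obtain ⟨hl1, hl2, hl3⟩ := hlv i hi
  have hmk : lv S.X i ≤ k₁ := by exact_mod_cast hl3
  have hab : S.n S.a ≤ S.n S.b := by
    unfold Par.n Par.x
    apply Nat.floor_le_floor
    apply Real.exp_le_exp.mpr
    apply mul_le_mul_of_nonneg_left _ hh.le
    exact_mod_cast hab'.le
  -- the sum of the weights
  have hcard : ((S.I.card : ℕ) : ℝ) = S.N := by
    unfold Par.I Par.N
    rw [Int.card_Ico]
    have h : ((S.b - S.a).toNat : ℤ) = S.b - S.a := Int.toNat_of_nonneg (by omega)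
    have h' : (((S.b - S.a).toNat : ℤ) : ℝ) = ((S.b - S.a : ℤ) : ℝ) := by rw [h]
    push_cast at h'
    exact h'
  have hone : sS S (fun _ => 1) ≤ 2 * (S.N * S.h) := by
    have h3 := h2 S r k₁ w (fun _ => 1) hS (le_trans (le_max_right _ _) hX) hw
      (fun n => by simp)
    have h4 : S.h * ∑ t ∈ S.I, sl (w * Nt S t) (S.n t) (fun _ => 1) ≤ S.h * S.N := by
      apply mul_le_mul_of_nonneg_left _ hh.le
      rw [← hcard]
      calc ∑ t ∈ S.I, sl (w * Nt S t) (S.n t) (fun _ => 1) ≤ ∑ t ∈ S.I, (1 : ℝ) := by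
            apply Finset.sum_le_sum
            intro t _
            unfold sl
            simp only [Finset.sum_const, Finset.card_range, nsmul_eq_mul, mul_one]
            exact div_self_le_one _
        _ = ((S.I.card : ℕ) : ℝ) := by simp
    have h5 := (abs_le.mp h3).1
    have h6 : min (ε / 8) 1 * (S.N * S.h) ≤ 1 * (S.N * S.h) :=
      mul_le_mul_of_nonneg_right (min_le_right _ _) (by positivity)
    linarith
  have hjj : ∀ k : ℕ, lv S.X i ≤ k → A * 2 ^ a ≤ (2 : ℝ) ^ k := by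
    intro k hk
    have hak : (a : ℝ) + A ≤ k := by
      have : ((lv S.X i : ℕ) : ℝ) ≤ k := by exact_mod_cast hk
      linarith
    have hak' : a ≤ k := by
      have : (a : ℝ) ≤ k := by linarith
      exact_mod_cast this
    obtain ⟨j, rfl⟩ := Nat.exists_eq_add_of_le hak'
    push_cast at hak
    have hj : A ≤ j := by linarith
    have hj2 : (j : ℝ) ≤ 2 ^ j := by exact_mod_cast (Nat.lt_two_pow_self).le
    rw [pow_add, mul_comm]
    apply mul_le_mul_of_nonneg_left (le_trans hj hj2) (by positivity)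
  have hlev : ∀ k : ℕ, lv S.X i ≤ k → k ≤ k₁ →
      sS S (En th lam 1 (2 ^ k)) ≤ sS S (En th lam 1 (2 ^ a)) + ε / 2 * (S.N * S.h) := by
    intro k hk hk1
    apply sa2_lev hRB hRN hSF th hth0 hth1 lam hB S a k A ε (S.N * S.h) hA hNh hone hAε hab
      (hjj k hk)
    refine le_trans ?_ hAk
    apply mul_le_mul_of_nonneg_left _ hA0.le
    exact pow_le_pow_right₀ (by norm_num) hk1
  have hu0 : 0 < S.N * S.h := by positivity
  refine ⟨?_, ?_, ?_⟩
  · have h3 := h2 S r k₁ w (fun v => En th lam 1 (2 ^ lv S.X i) v / 2) hS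
      (le_trans (le_max_right _ _) hX) hw (fun n => sa2_abs hRB th hth0 lam hB _ n)
    have e1 : ∑ t ∈ S.I, sl (w * Nt S t) (S.n t) (fun v => En th lam 1 (2 ^ lv S.X i) v / 2)
        = (∑ t ∈ S.I, sl (w * Nt S t) (S.n t) (En th lam 1 (2 ^ lv S.X i))) / 2 := by
      rw [Finset.sum_div]
      apply Finset.sum_congr rfl
      intro t _
      rw [sa2_sl]
    have e2 : sS S (fun v => En th lam 1 (2 ^ lv S.X i) v / 2) =
        (sS S (En th lam 1 (2 ^ lv S.X i))) / 2 := by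
      unfold sS
      rw [Finset.sum_div]
      apply Finset.sum_congr rfl
      intro n _
      ring
    rw [e1, e2] at h3
    have h5 := (abs_le.mp h3).2
    have h6 : min (ε / 8) 1 * (S.N * S.h) ≤ ε / 8 * (S.N * S.h) :=
      mul_le_mul_of_nonneg_right (min_le_left _ _) hu0.le
    have h7 := hlev _ le_rfl hmk
    have h8 : S.h * ((∑ t ∈ S.I, sl (w * Nt S t) (S.n t) (En th lam 1 (2 ^ lv S.X i))) / 2)
        = (S.h * ∑ t ∈ S.I, sl (w * Nt S t) (S.n t) (En th lam 1 (2 ^ lv S.X i))) / 2 := by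
      ring
    rw [h8] at h5
    have h9 : 0 < ε * (S.N * S.h) := by positivity
    have h10 : ε / 8 * (S.N * S.h) = ε * (S.N * S.h) / 8 := by ring
    have h11 : ε / 2 * (S.N * S.h) = ε * (S.N * S.h) / 2 := by ring
    linarith
  · have h7 := hlev _ hmk le_rfl
    have h9 : 0 < ε * (S.N * S.h) := by positivity
    have h11 : ε / 2 * (S.N * S.h) = ε * (S.N * S.h) / 2 := by ring
    linarith
  · intro t htI
    obtain ⟨_, _, _, _, _, _, hAm⟩ := ht t htI
    have hm := hAm i hi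
    have h2m : (1 : ℝ) ≤ 2 ^ lv S.X i := one_le_pow₀ (by norm_num)
    have hw1 : 1 ≤ w := by rcases hw with h | h <;> omega
    have hwN : (Nt S t : ℝ) ≤ ((w * Nt S t : ℕ) : ℝ) := by
      exact_mod_cast Nat.le_mul_of_pos_left _ hw1
    have hpos : (0 : ℝ) < ((w * Nt S t : ℕ) : ℝ) := by
      have : 0 < A * 2 ^ lv S.X i := by positivity
      linarith
    have hN1 : 1 ≤ w * Nt S t := by
      have : 0 < w * Nt S t := by exact_mod_cast hpos
      omega
    have hrn := hRN th lam (2 ^ lv S.X i) (w * Nt S t) (S.n t) hth0 hth1 hB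
      Nat.one_le_two_pow hN1
    have hr : (((2 ^ lv S.X i : ℕ) : ℝ)) / ((w * Nt S t : ℕ) : ℝ) ≤ 1 / A := by
      rw [div_le_div_iff₀ hpos hA0]
      push_cast at hwN ⊢
      linarith
    have h3 := mul_le_mul_of_nonneg_left hr hC
    have h4 : 16 / th ^ 2 * (1 / A) ≤ ε := by
      have h5 : (2 * (16 / th ^ 2) + 8) / A = 2 * (16 / th ^ 2 * (1 / A)) + 8 * (1 / A) := by
        field_simp
      have h6 : 0 < 1 / A := by positivity
      have h7 : 0 ≤ 16 / th ^ 2 * (1 / A) := by positivity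
      linarith
    linarith

end Pool.Agent.H56.E.H76.G3
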